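import Pool.Agent.Helper77.K3.DefsI

/-!
# The invariant convex cone
-/

set_option autoImplicit false
set_option linter.dupNamespace false

open Set Filter Topology Matrix

namespace Pool.Agent.Helper62.K3.cone

open Pool.Agent.Helper77.K3

lemma m_mul (F : FS) (f f' : F.G) : F.m (f * f') = F.m f * F.m f' := by
  unfold FS.m
  rw [map_mul, Matrix.SpecialLinearGroup.coe_mul]

lemma m_one (F : FS) : F.m 1 = 1 := by
  unfold FS.m
  rw [map_one, Matrix.SpecialLinearGroup.coe_one]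

lemma dot_continuous (ψ : E) : Continuous fun x : E => ψ ⬝ᵥ x := by
  unfold dotProduct
  exact continuous_finsetSum _ fun i _ => continuous_const.mul (continuous_apply i)

/-- The set of directions. -/
def Lam (F : FS) : Set E := {x | ∃ φ, (x, φ) ∈ F.fl}

/-- The positive directions. -/
def Lp (F : FS) (ell : E) : Set E := {x | x ∈ Lam F ∧ 0 < ell ⬝ᵥ x}

/-- The convex cone. -/
def Cn (F : FS) (ell : E) : Set E :=
  {x | ∀ ψ : E, (∀ y ∈ Lp F ell, 0 ≤ ψ ⬝ᵥ y) → 0 ≤ ψ ⬝ᵥ x}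

lemma Cn_closed (F : FS) (ell : E) : IsClosed (Cn F ell) := by
  have h : Cn F ell = ⋂ ψ : E, ⋂ _ : (∀ y ∈ Lp F ell, 0 ≤ ψ ⬝ᵥ y), {x | 0 ≤ ψ ⬝ᵥ x} := by
    ext x
    simp [Cn]
  rw [h]
  exact isClosed_iInter fun ψ => isClosed_iInter fun _ =>
    isClosed_le continuous_const (dot_continuous ψ)

lemma Cn_convex (F : FS) (ell : E) : Convex ℝ (Cn F ell) := by
  intro x hx y hy a b ha hb _ ψ hψ
  rw [dotProduct_add, dotProduct_smul, dotProduct_smul]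
  exact add_nonneg (mul_nonneg ha (hx ψ hψ)) (mul_nonneg hb (hy ψ hψ))

lemma Cn_smul (F : FS) (ell : E) : ∀ x ∈ Cn F ell, ∀ t : ℝ, 0 ≤ t → t • x ∈ Cn F ell := by
  intro x hx t ht ψ hψ
  rw [dotProduct_smul]
  exact mul_nonneg ht (hx ψ hψ)

lemma Lp_sub (F : FS) (ell : E) : Lp F ell ⊆ Cn F ell := fun x hx _ hψ => hψ x hx

lemma exists_kappa (F : FS) (hflag : S_flag) (ell : E) (hne : ∀ p ∈ F.fl, ell ⬝ᵥ p.1 ≠ 0) :
    ∃ κ : ℝ, 0 < κ ∧ ∀ y ∈ Lp F ell, κ * ‖y‖ ≤ ell ⬝ᵥ y := by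
  obtain ⟨h0, hsc, -, -, -, -, -, hcl, -⟩ := hflag F
  have hL1c : IsCompact (closure (Lam F) ∩ Metric.sphere (0 : E) 1) :=
    (isCompact_sphere (0 : E) 1).inter_left isClosed_closure
  have hmem : ∀ y ∈ Lam F, (‖y‖)⁻¹ • y ∈ closure (Lam F) ∩ Metric.sphere (0 : E) 1 := by
    rintro y ⟨φ, hy⟩
    have hy0 : y ≠ 0 := hy.2.1
    have hpos : 0 < ‖y‖ := norm_pos_iff.mpr hy0
    refine ⟨subset_closure ⟨(‖y‖)⁻¹ • φ, ?_⟩, ?_⟩
    · exact hsc (y, φ) hy (‖y‖)⁻¹ (‖y‖)⁻¹ (by positivity)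
    · rw [mem_sphere_zero_iff_norm, norm_smul, norm_inv, norm_norm, inv_mul_cancel₀ hpos.ne']
  have hne1 : (closure (Lam F) ∩ Metric.sphere (0 : E) 1).Nonempty := ⟨_, hmem (e 2) ⟨_, h0⟩⟩
  obtain ⟨x0, hx0, hmin⟩ := hL1c.exists_isMinOn hne1
    ((continuous_abs.comp (dot_continuous ell)).continuousOn)
  have hx0ne : x0 ≠ 0 := by
    intro h
    have := hx0.2
    rw [h, mem_sphere_zero_iff_norm, norm_zero] at this
    exact zero_ne_one this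
  obtain ⟨φ0, hφ0⟩ := hcl x0 hx0.1 hx0ne
  refine ⟨|ell ⬝ᵥ x0|, abs_pos.mpr (hne _ hφ0), ?_⟩
  intro y hy
  have hypos : 0 < ‖y‖ := norm_pos_iff.mpr (by
    obtain ⟨φ, hφ⟩ := hy.1
    exact hφ.2.1)
  have h1 := isMinOn_iff.mp hmin _ (hmem y hy.1)
  simp only [Function.comp_apply] at h1
  rw [dotProduct_smul, smul_eq_mul, abs_mul, abs_of_pos (inv_pos.mpr hypos), abs_of_pos hy.2] at h1
  calc |ell ⬝ᵥ x0| * ‖y‖ ≤ ((‖y‖)⁻¹ * (ell ⬝ᵥ y)) * ‖y‖ := mul_le_mul_of_nonneg_right h1 hypos.le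
    _ = ell ⬝ᵥ y := by field_simp

lemma Cn_kappa (F : FS) (ell : E) (κ : ℝ) (hκ : 0 < κ)
    (h : ∀ y ∈ Lp F ell, κ * ‖y‖ ≤ ell ⬝ᵥ y) : ∀ x ∈ Cn F ell, κ * ‖x‖ ≤ ell ⬝ᵥ x := by
  intro x hx
  have hcoord : ∀ i : Fin 3, κ * |x i| ≤ ell ⬝ᵥ x := by
    intro i
    have key : ∀ s : ℝ, |s| = 1 → 0 ≤ ell ⬝ᵥ x - κ * (s * x i) := by
      intro s hs
      have h1 : 0 ≤ (ell - (κ * s) • (Pi.single i 1 : E)) ⬝ᵥ x := by
        apply hx
        intro y hy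
        rw [sub_dotProduct, smul_dotProduct, single_one_dotProduct, smul_eq_mul]
        have h2 := h y hy
        have h3 : s * y i ≤ ‖y‖ := by
          calc s * y i ≤ |s * y i| := le_abs_self _
            _ = |y i| := by rw [abs_mul, hs, one_mul]
            _ ≤ ‖y‖ := by
              have := norm_le_pi_norm y i
              rwa [Real.norm_eq_abs] at this
        have h4 : κ * (s * y i) ≤ κ * ‖y‖ := mul_le_mul_of_nonneg_left h3 hκ.le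
        linarith [mul_assoc κ s (y i)]
      rw [sub_dotProduct, smul_dotProduct, single_one_dotProduct, smul_eq_mul] at h1
      linarith [mul_assoc κ s (x i)]
    have hp := key 1 (by simp)
    have hm := key (-1) (by simp)
    rcases abs_cases (x i) with ⟨h5, _⟩ | ⟨h5, _⟩
    · rw [h5]
      linarith
    · rw [h5]
      have : κ * (-1 * x i) = κ * -x i := by ring
      linarith
  have hx' : ‖x‖ ≤ (ell ⬝ᵥ x) / κ := by
    have h0 : 0 ≤ (ell ⬝ᵥ x) / κ := by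
      have := hcoord 0
      apply div_nonneg _ hκ.le
      exact le_trans (by positivity) this
    rw [pi_norm_le_iff_of_nonneg h0]
    intro i
    rw [Real.norm_eq_abs, le_div_iff₀ hκ, mul_comm]
    exact hcoord i
  rw [le_div_iff₀ hκ, mul_comm] at hx'
  exact hx'

lemma Lam_m (F : FS) (hflag : S_flag) (f : F.G) (x : E) (hx : x ∈ Lam F) :
    F.m f *ᵥ x ∈ Lam F := by
  obtain ⟨φ, hφ⟩ := hx
  exact ⟨_, (hflag F).2.2.1 _ hφ f⟩

lemma Lam_neg (F : FS) (hflag : S_flag) (x : E) (hx : x ∈ Lam F) : -x ∈ Lam F := by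
  obtain ⟨φ, hφ⟩ := hx
  have h := (hflag F).2.1 _ hφ (-1) (-1) (by norm_num)
  simp only [neg_smul, one_smul] at h
  exact ⟨_, h⟩

lemma Lam_span (F : FS) (hflag : S_flag) : Submodule.span ℝ (Lam F) = ⊤ := by
  have h := F.irr ⊤ inferInstance (Submodule.span ℝ (Lam F)) (by
    intro f _ u hu
    have h1 : Submodule.map (linRep F.ρ f) (Submodule.span ℝ (Lam F)) ≤
        Submodule.span ℝ (Lam F) := by
      rw [Submodule.map_span, Submodule.span_le]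
      rintro _ ⟨x, hx, rfl⟩
      apply Submodule.subset_span
      exact Lam_m F hflag f x hx
    exact h1 ⟨u, hu, rfl⟩)
  rcases h with h | h
  · exfalso
    have h1 : (e 2 : E) ∈ Submodule.span ℝ (Lam F) := Submodule.subset_span ⟨_, (hflag F).1⟩
    rw [h, Submodule.mem_bot] at h1
    have := congrFun h1 2
    simp [e] at this
  · exact h

lemma Lp_span (F : FS) (hflag : S_flag) (ell : E) (hne : ∀ p ∈ F.fl, ell ⬝ᵥ p.1 ≠ 0) :
    Submodule.span ℝ (Lp F ell) = ⊤ := by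
  rw [eq_top_iff, ← Lam_span F hflag, Submodule.span_le]
  intro x hx
  rcases lt_or_gt_of_ne (hne _ hx.choose_spec) with h | h
  · have h1 : -x ∈ Lp F ell := ⟨Lam_neg F hflag x hx, by
      rw [dotProduct_neg]
      simpa using h⟩
    have h2 := (Submodule.span ℝ (Lp F ell)).neg_mem (Submodule.subset_span h1)
    rwa [neg_neg] at h2
  · exact Submodule.subset_span ⟨hx, h⟩

lemma Cn_interior (F : FS) (hflag : S_flag) (ell : E) (hne : ∀ p ∈ F.fl, ell ⬝ᵥ p.1 ≠ 0) :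
    (interior (Cn F ell)).Nonempty := by
  rw [(Cn_convex F ell).interior_nonempty_iff_affineSpan_eq_top]
  have h0 : (0 : E) ∈ Cn F ell := by
    intro ψ _
    rw [dotProduct_zero]
  rw [AffineSubspace.affineSpan_eq_top_iff_vectorSpan_eq_top_of_nonempty ℝ E E ⟨0, h0⟩]
  rw [eq_top_iff, ← Lp_span F hflag ell hne, Submodule.span_le]
  intro x hx
  have h1 := vsub_mem_vectorSpan ℝ (Lp_sub F ell hx) h0
  simpa using h1

/-- Every element of the group preserves or reverses the sign of `ell`. -/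
lemma sign_const (F : FS) (hflag : S_flag) (hconn : F.Conn) (ell : E)
    (hne : ∀ p ∈ F.fl, ell ⬝ᵥ p.1 ≠ 0) (f : F.G) :
    (∀ p ∈ F.fl, 0 < (ell ⬝ᵥ (F.m f *ᵥ p.1)) * (ell ⬝ᵥ p.1)) ∨
    (∀ p ∈ F.fl, (ell ⬝ᵥ (F.m f *ᵥ p.1)) * (ell ⬝ᵥ p.1) < 0) := by
  have hcont : Continuous fun x : E => (ell ⬝ᵥ (F.m f *ᵥ x)) * (ell ⬝ᵥ x) := by
    refine Continuous.mul ?_ (dot_continuous ell)
    exact (dot_continuous ell).comp (Continuous.matrix_mulVec continuous_const continuous_id)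
  have hhom : ∀ (x : E) (t : ℝ), (ell ⬝ᵥ (F.m f *ᵥ (t • x))) * (ell ⬝ᵥ (t • x)) =
      t ^ 2 * ((ell ⬝ᵥ (F.m f *ᵥ x)) * (ell ⬝ᵥ x)) := by
    intro x t
    rw [Matrix.mulVec_smul, dotProduct_smul, dotProduct_smul, smul_eq_mul, smul_eq_mul]
    ring
  have hne2 : ∀ p ∈ F.fl, (ell ⬝ᵥ (F.m f *ᵥ p.1)) * (ell ⬝ᵥ p.1) ≠ 0 := by
    intro p hp
    exact mul_ne_zero (hne _ ((hflag F).2.2.1 p hp f)) (hne p hp)
  rcases hconn {x | 0 ≤ (ell ⬝ᵥ (F.m f *ᵥ x)) * (ell ⬝ᵥ x)}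
    {x | (ell ⬝ᵥ (F.m f *ᵥ x)) * (ell ⬝ᵥ x) ≤ 0} (isClosed_le continuous_const hcont)
    (isClosed_le hcont continuous_const) (by
      intro x hx t
      simp only [mem_ofPred_eq] at hx ⊢
      rw [hhom]
      positivity) (by
      intro x hx t
      simp only [mem_ofPred_eq] at hx ⊢
      rw [hhom]
      exact mul_nonpos_of_nonneg_of_nonpos (sq_nonneg t) hx)
    (fun p _ => le_total (0 : ℝ) ((ell ⬝ᵥ (F.m f *ᵥ p.1)) * (ell ⬝ᵥ p.1)))
    (fun p hp h => hne2 p hp (le_antisymm h.2 h.1)) with h | h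
  · left
    intro p hp
    exact lt_of_le_of_ne (h p hp) (hne2 p hp).symm
  · right
    intro p hp
    exact lt_of_le_of_ne (h p hp) (hne2 p hp)

/-- The subgroup preserving the sign. -/
noncomputable def Gp (F : FS) (hflag : S_flag) (ell : E) (hne : ∀ p ∈ F.fl, ell ⬝ᵥ p.1 ≠ 0) :
    Subgroup F.G where
  carrier := {f | ∀ p ∈ F.fl, 0 < (ell ⬝ᵥ (F.m f *ᵥ p.1)) * (ell ⬝ᵥ p.1)}
  mul_mem' := by
    intro f f' hf hf' p hp
    have h1 := hf _ ((hflag F).2.2.1 p hp f')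
    have h2 := hf' p hp
    simp only at h1
    rw [m_mul, ← Matrix.mulVec_mulVec]
    have h3 := mul_pos h1 h2
    have h4 : (ell ⬝ᵥ (F.m f *ᵥ (F.m f' *ᵥ p.1))) * (ell ⬝ᵥ (F.m f' *ᵥ p.1)) *
        ((ell ⬝ᵥ (F.m f' *ᵥ p.1)) * (ell ⬝ᵥ p.1)) =
        ((ell ⬝ᵥ (F.m f *ᵥ (F.m f' *ᵥ p.1))) * (ell ⬝ᵥ p.1)) *
        (ell ⬝ᵥ (F.m f' *ᵥ p.1)) ^ 2 := by ring
    rw [h4] at h3
    exact pos_of_mul_pos_left h3 (sq_nonneg _)
  one_mem' := by
    intro p hp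
    rw [m_one, Matrix.one_mulVec]
    exact mul_self_pos.mpr (hne p hp)
  inv_mem' := by
    intro f hf p hp
    have h1 := hf _ ((hflag F).2.2.1 p hp f⁻¹)
    simp only at h1
    rw [Matrix.mulVec_mulVec, ← m_mul, mul_inv_cancel, m_one, Matrix.one_mulVec, mul_comm] at h1
    exact h1

lemma mem_Gp (F : FS) (hflag : S_flag) (ell : E) (hne : ∀ p ∈ F.fl, ell ⬝ᵥ p.1 ≠ 0) (f : F.G) :
    f ∈ Gp F hflag ell hne ↔ ∀ p ∈ F.fl, 0 < (ell ⬝ᵥ (F.m f *ᵥ p.1)) * (ell ⬝ᵥ p.1) := Iff.rfl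

lemma Gp_mul (F : FS) (hflag : S_flag) (hconn : F.Conn) (ell : E)
    (hne : ∀ p ∈ F.fl, ell ⬝ᵥ p.1 ≠ 0) (f f' : F.G) (hf : f ∉ Gp F hflag ell hne)
    (hf' : f' ∉ Gp F hflag ell hne) : f * f' ∈ Gp F hflag ell hne := by
  rw [mem_Gp] at hf hf' ⊢
  have h1 := (sign_const F hflag hconn ell hne f).resolve_left hf
  have h2 := (sign_const F hflag hconn ell hne f').resolve_left hf'
  intro p hp
  have h3 := h1 _ ((hflag F).2.2.1 p hp f')
  have h4 := h2 p hp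
  simp only at h3
  rw [m_mul, ← Matrix.mulVec_mulVec]
  have h5 := mul_pos_of_neg_of_neg h3 h4
  have h6 : (ell ⬝ᵥ (F.m f *ᵥ (F.m f' *ᵥ p.1))) * (ell ⬝ᵥ (F.m f' *ᵥ p.1)) *
      ((ell ⬝ᵥ (F.m f' *ᵥ p.1)) * (ell ⬝ᵥ p.1)) =
      ((ell ⬝ᵥ (F.m f *ᵥ (F.m f' *ᵥ p.1))) * (ell ⬝ᵥ p.1)) *
      (ell ⬝ᵥ (F.m f' *ᵥ p.1)) ^ 2 := by ring
  rw [h6] at h5
  exact pos_of_mul_pos_left h5 (sq_nonneg _)

lemma Gp_finiteIndex (F : FS) (hflag : S_flag) (hconn : F.Conn) (ell : E)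
    (hne : ∀ p ∈ F.fl, ell ⬝ᵥ p.1 ≠ 0) : (Gp F hflag ell hne).FiniteIndex := by
  by_cases htop : Gp F hflag ell hne = ⊤
  · rw [htop]
    infer_instance
  · obtain ⟨a, ha⟩ : ∃ a, a ∉ Gp F hflag ell hne := by
      by_contra h
      push Not at h
      exact htop (eq_top_iff.mpr fun x _ => h x)
    have h2 : (Gp F hflag ell hne).index = 2 := by
      rw [Subgroup.index_eq_two_iff]
      refine ⟨a, fun b => ?_⟩
      by_cases hb : b ∈ Gp F hflag ell hne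
      · right
        exact ⟨hb, fun h => ha ((Subgroup.mul_mem_cancel_left _ hb).mp h)⟩
      · left
        exact ⟨Gp_mul F hflag hconn ell hne b a hb ha, hb⟩
    exact ⟨by rw [h2]; norm_num⟩

theorem cone (hflag : S_flag) (hgood2 : S_good2) : S_cone := by
  intro F d v w μ hG hconn hside
  obtain ⟨σ, hσ, hside⟩ := hside
  have hσ2 : σ * σ = 1 := by rcases hσ with rfl | rfl <;> norm_num
  have hne : ∀ p ∈ F.fl, (σ • w 0 + w 2) ⬝ᵥ p.1 ≠ 0 := by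
    intro p hp h
    rw [add_dotProduct, smul_dotProduct, smul_eq_mul] at h
    have h1 := hside p hp
    have h2 : w 2 ⬝ᵥ p.1 = -(σ * (w 0 ⬝ᵥ p.1)) := by linarith
    rw [h2] at h1
    have h3 : σ * (w 0 ⬝ᵥ p.1 * -(σ * w 0 ⬝ᵥ p.1)) = -((σ * σ) * (w 0 ⬝ᵥ p.1) ^ 2) := by ring
    rw [h3, hσ2, one_mul] at h1
    have h4 : w 0 ⬝ᵥ p.1 = 0 := by
      have : (w 0 ⬝ᵥ p.1) ^ 2 ≤ 0 := by linarith
      exact pow_eq_zero_iff (two_ne_zero) |>.mp (le_antisymm this (sq_nonneg _))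
    rw [h4, mul_zero, neg_zero] at h2
    obtain ⟨t, ht⟩ := (hgood2 F d v w μ hG p hp).1 h2
    rw [ht, dotProduct_smul, hG.dual 0 0, if_pos rfl, smul_eq_mul, mul_one] at h4
    apply hp.2.1
    rw [ht, h4, zero_smul]
  obtain ⟨κ, hκ, hκ2⟩ := exists_kappa F hflag (σ • w 0 + w 2) hne
  refine ⟨Gp F hflag _ hne, Cn F (σ • w 0 + w 2), σ • w 0 + w 2, κ,
    Gp_finiteIndex F hflag hconn _ hne, Cn_closed _ _, Cn_convex _ _, Cn_smul _ _, hκ,
    Cn_kappa _ _ κ hκ hκ2, Cn_interior F hflag _ hne, ?_⟩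
  intro f hf x hx ψ hψ
  rw [Matrix.dotProduct_mulVec]
  apply hx
  intro y hy
  rw [← Matrix.dotProduct_mulVec]
  apply hψ
  refine ⟨Lam_m F hflag f y hy.1, ?_⟩
  obtain ⟨φ, hφ⟩ := hy.1
  have h1 := hf _ hφ
  exact pos_of_mul_pos_left h1 hy.2.le

end Pool.Agent.Helper62.K3.cone
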