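import Pool.Agent.Helper77.K3.DefsII

/-!
# Groups of plane matrices which are bounded modulo scalars are conformal
-/

set_option autoImplicit false
set_option linter.dupNamespace false

open Set Filter Topology Matrix

namespace Pool.Agent.Helper62.K3.conf2

open Pool.Agent.Helper77.K3

/-- Action of a matrix on quadratic forms `q 0 x² + 2 q 1 x y + q 2 y²`, normalised. -/
noncomputable def T (A : M2) : E →ₗ[ℝ] E where
  toFun q := ![(A.det)⁻¹ * (q 0 * A 0 0 ^ 2 + 2 * q 1 * A 0 0 * A 1 0 + q 2 * A 1 0 ^ 2),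
    (A.det)⁻¹ * (q 0 * A 0 0 * A 0 1 + q 1 * (A 0 0 * A 1 1 + A 0 1 * A 1 0) +
      q 2 * A 1 0 * A 1 1),
    (A.det)⁻¹ * (q 0 * A 0 1 ^ 2 + 2 * q 1 * A 0 1 * A 1 1 + q 2 * A 1 1 ^ 2)]
  map_add' q q' := by
    funext i
    fin_cases i <;> simp <;> ring
  map_smul' c q := by
    funext i
    fin_cases i <;> simp <;> ring

lemma T0 (A : M2) (q : E) : T A q 0 =
    (A.det)⁻¹ * (q 0 * A 0 0 ^ 2 + 2 * q 1 * A 0 0 * A 1 0 + q 2 * A 1 0 ^ 2) := rfl

lemma T1 (A : M2) (q : E) : T A q 1 =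
    (A.det)⁻¹ * (q 0 * A 0 0 * A 0 1 + q 1 * (A 0 0 * A 1 1 + A 0 1 * A 1 0) +
      q 2 * A 1 0 * A 1 1) := rfl

lemma T2 (A : M2) (q : E) : T A q 2 =
    (A.det)⁻¹ * (q 0 * A 0 1 ^ 2 + 2 * q 1 * A 0 1 * A 1 1 + q 2 * A 1 1 ^ 2) := rfl

/-- The determinant of a form. -/
def dt (q : E) : ℝ := q 0 * q 2 - q 1 ^ 2

lemma dt_T (A : M2) (q : E) (hA : A.det ≠ 0) : dt (T A q) = dt q := by
  unfold dt
  rw [T0, T1, T2]
  have h : (A.det)⁻¹ * A.det = 1 := inv_mul_cancel₀ hA
  have h2 : A.det = A 0 0 * A 1 1 - A 0 1 * A 1 0 := Matrix.det_fin_two A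
  set u := (A.det)⁻¹
  rw [h2] at h
  linear_combination (u * (A 0 0 * A 1 1 - A 0 1 * A 1 0) + 1) * (q 0 * q 2 - q 1 ^ 2) * h

lemma T_mul (A B : M2) (q : E) : T (A * B) q = T B (T A q) := by
  funext i
  have hd : ((A * B).det)⁻¹ = (A.det)⁻¹ * (B.det)⁻¹ := by
    rw [Matrix.det_mul, mul_inv]
  fin_cases i
  · show T (A * B) q 0 = T B (T A q) 0
    rw [T0, T0, T0, T1, T2, hd]
    simp only [Matrix.mul_apply, Fin.sum_univ_two]
    ring
  · show T (A * B) q 1 = T B (T A q) 1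
    rw [T1, T1, T0, T1, T2, hd]
    simp only [Matrix.mul_apply, Fin.sum_univ_two]
    ring
  · show T (A * B) q 2 = T B (T A q) 2
    rw [T2, T2, T0, T1, T2, hd]
    simp only [Matrix.mul_apply, Fin.sum_univ_two]
    ring

/-- Uniqueness of the maximum of the determinant. -/
lemma uniq (a b c a' b' c' M : ℝ) (ha : 0 < a) (ha' : 0 < a') (hM : 0 < M)
    (h : a * c - b ^ 2 = M) (h' : a' * c' - b' ^ 2 = M)
    (hle : ((a + a') / 2) * ((c + c') / 2) - ((b + b') / 2) ^ 2 ≤ M) :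
    a = a' ∧ b = b' ∧ c = c' := by
  have h1 : M * (a - a') ^ 2 + (a * b' - a' * b) ^ 2 ≤ 0 := by
    have h2 : 0 ≤ a * a' * (4 * M - ((a + a') * (c + c') - (b + b') ^ 2)) := by
      apply mul_nonneg (mul_pos ha ha').le
      nlinarith
    have h3 : M * (a - a') ^ 2 + (a * b' - a' * b) ^ 2 =
        -(a * a' * (4 * M - ((a + a') * (c + c') - (b + b') ^ 2))) := by
      linear_combination -(a' ^ 2 + a * a') * h - (a ^ 2 + a * a') * h'
    linarith
  have h2 : a = a' := by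
    have h3 : M * (a - a') ^ 2 ≤ 0 := by nlinarith [sq_nonneg (a * b' - a' * b)]
    have h4 : (a - a') ^ 2 ≤ 0 := by
      by_contra h5
      exact absurd h3 (not_le.mpr (mul_pos hM (not_le.mp h5)))
    have h5 : a - a' = 0 := by
      exact pow_eq_zero_iff (two_ne_zero) |>.mp (le_antisymm h4 (sq_nonneg _))
    linarith
  subst h2
  have h3 : b = b' := by
    have h4 : (a * b' - a * b) ^ 2 ≤ 0 := by nlinarith
    have h5 : a * b' - a * b = 0 :=
      pow_eq_zero_iff (two_ne_zero) |>.mp (le_antisymm h4 (sq_nonneg _))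
    have h6 : a * (b' - b) = 0 := by linarith
    rcases mul_eq_zero.mp h6 with h7 | h7
    · exact absurd h7 ha.ne'
    · linarith
  subst h3
  refine ⟨rfl, rfl, ?_⟩
  have h4 : a * (c - c') = 0 := by linarith
  rcases mul_eq_zero.mp h4 with h7 | h7
  · exact absurd h7 ha.ne'
  · linarith

/-- Existence of an invariant form. -/
lemma exists_form {G : Type} [Group G] (ρ : G →* M2) (hpos : ∀ f, 0 < (ρ f).det)
    (hb : BddMod ρ) : ∃ q : E, 0 < q 0 ∧ 0 < dt q ∧ ∀ f, T (ρ f) q = q := by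
  obtain ⟨R, hR⟩ := hb
  set q1 : E := ![1, 0, 1] with hq1
  set S : Set E := range fun f : G => T (ρ f) q1 with hS
  have hSb : Bornology.IsBounded S := by
    rw [isBounded_iff_forall_norm_le]
    refine ⟨2 * R, ?_⟩
    rintro _ ⟨f, rfl⟩
    have hd := hpos f
    have hR' : ∀ i j, (ρ f i j) ^ 2 ≤ R * (ρ f).det := fun i j => by
      have := hR f i j
      rwa [abs_of_pos hd] at this
    have hR0 : 0 ≤ R := by
      have h1 : 0 ≤ R * (ρ f).det := le_trans (sq_nonneg _) (hR' 0 0)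
      exact nonneg_of_mul_nonneg_left h1 hd
    rw [pi_norm_le_iff_of_nonneg (by positivity)]
    intro i
    rw [Real.norm_eq_abs]
    have hinv : 0 < ((ρ f).det)⁻¹ := inv_pos.mpr hd
    have hfin : ∀ z : ℝ, |z| ≤ 2 * R * (ρ f).det → |((ρ f).det)⁻¹ * z| ≤ 2 * R := by
      intro z hz
      rw [abs_mul, abs_of_pos hinv, inv_mul_le_iff₀ hd]
      linarith
    have h00 := hR' 0 0
    have h01 := hR' 0 1
    have h10 := hR' 1 0
    have h11 := hR' 1 1
    fin_cases i
    · show |T (ρ f) q1 0| ≤ 2 * R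
      rw [T0]
      apply hfin
      simp only [hq1, Matrix.cons_val_zero, Matrix.cons_val_one, Matrix.cons_val_two,
        Matrix.tail_cons, Matrix.head_cons]
      rw [abs_le]
      constructor <;> nlinarith [sq_nonneg (ρ f 0 0), sq_nonneg (ρ f 1 0)]
    · show |T (ρ f) q1 1| ≤ 2 * R
      rw [T1]
      apply hfin
      simp only [hq1, Matrix.cons_val_zero, Matrix.cons_val_one, Matrix.cons_val_two,
        Matrix.tail_cons, Matrix.head_cons]
      rw [abs_le]
      constructor <;> nlinarith [sq_nonneg (ρ f 0 0 + ρ f 0 1), sq_nonneg (ρ f 1 0 + ρ f 1 1),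
        sq_nonneg (ρ f 0 0 - ρ f 0 1), sq_nonneg (ρ f 1 0 - ρ f 1 1)]
    · show |T (ρ f) q1 2| ≤ 2 * R
      rw [T2]
      apply hfin
      simp only [hq1, Matrix.cons_val_zero, Matrix.cons_val_one, Matrix.cons_val_two,
        Matrix.tail_cons, Matrix.head_cons]
      rw [abs_le]
      constructor <;> nlinarith [sq_nonneg (ρ f 0 1), sq_nonneg (ρ f 1 1)]
  set Cc : Set E := closure (convexHull ℝ S) with hCc
  have hcomp : IsCompact Cc := (isBounded_convexHull.mpr hSb).isCompact_closure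
  have hconv : Convex ℝ Cc := (convex_convexHull ℝ S).closure
  have hSC : S ⊆ Cc := (subset_convexHull ℝ S).trans subset_closure
  have hq1S : q1 ∈ S := by
    refine ⟨1, ?_⟩
    show T (ρ 1) q1 = q1
    rw [map_one]
    funext i
    fin_cases i
    · show T 1 q1 0 = q1 0
      rw [T0]; simp [hq1]
    · show T 1 q1 1 = q1 1
      rw [T1]; simp [hq1]
    · show T 1 q1 2 = q1 2
      rw [T2]; simp [hq1]
  have hinv : ∀ f : G, ∀ q ∈ Cc, T (ρ f) q ∈ Cc := by
    intro f
    have hclosed : IsClosed {q : E | T (ρ f) q ∈ Cc} :=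
      isClosed_closure.preimage (LinearMap.continuous_of_finiteDimensional _)
    have hconv' : Convex ℝ {q : E | T (ρ f) q ∈ Cc} := hconv.linear_preimage (T (ρ f))
    have hsub : S ⊆ {q : E | T (ρ f) q ∈ Cc} := by
      rintro _ ⟨h, rfl⟩
      show T (ρ f) (T (ρ h) q1) ∈ Cc
      rw [← T_mul, ← map_mul]
      exact hSC ⟨_, rfl⟩
    exact closure_minimal (convexHull_min hsub hconv') hclosed
  have hcontdt : Continuous dt := by
    unfold dt
    fun_prop
  obtain ⟨q, hqC, hqmax⟩ := hcomp.exists_isMaxOn ⟨q1, hSC hq1S⟩ hcontdt.continuousOn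
  have hM : 1 ≤ dt q := by
    have h1 := isMaxOn_iff.mp hqmax q1 (hSC hq1S)
    have h2 : dt q1 = 1 := by simp [dt, hq1]
    linarith
  have hnn : ∀ q ∈ Cc, 0 ≤ q 0 := by
    have hsub : Cc ⊆ {q : E | 0 ≤ q 0} := by
      refine closure_minimal (convexHull_min ?_ ?_)
        (isClosed_le continuous_const (continuous_apply 0))
      · rintro _ ⟨f, rfl⟩
        show 0 ≤ T (ρ f) q1 0
        rw [T0]
        have h1 := inv_pos.mpr (hpos f)
        simp only [hq1, Matrix.cons_val_zero, Matrix.cons_val_one, Matrix.cons_val_two,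
          Matrix.tail_cons, Matrix.head_cons]
        apply mul_nonneg h1.le
        nlinarith [sq_nonneg (ρ f 0 0), sq_nonneg (ρ f 1 0)]
      · exact convex_halfSpace_ge (f := fun q : E => q 0) ⟨fun _ _ => rfl, fun _ _ => rfl⟩ 0
    exact hsub
  have hpos0 : ∀ q ∈ Cc, 0 < dt q → 0 < q 0 := by
    intro q hq hd
    refine lt_of_le_of_ne (hnn q hq) fun h => ?_
    unfold dt at hd
    rw [← h] at hd
    nlinarith [sq_nonneg (q 1)]
  have hdq : 0 < dt q := by linarith
  refine ⟨q, hpos0 q hqC hdq, hdq, fun f => ?_⟩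
  have hq' := hinv f q hqC
  have hdq' : dt (T (ρ f) q) = dt q := dt_T _ _ (hpos f).ne'
  have hmid : (1 / 2 : ℝ) • q + (1 / 2 : ℝ) • T (ρ f) q ∈ Cc :=
    hconv hqC hq' (by norm_num) (by norm_num) (by norm_num)
  have hmax := isMaxOn_iff.mp hqmax _ hmid
  have hmax' : ((q 0 + T (ρ f) q 0) / 2) * ((q 2 + T (ρ f) q 2) / 2) -
      ((q 1 + T (ρ f) q 1) / 2) ^ 2 ≤ dt q := by
    refine le_trans (le_of_eq ?_) hmax
    unfold dt
    simp only [Pi.add_apply, Pi.smul_apply, smul_eq_mul]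
    ring
  obtain ⟨h0, h1, h2⟩ := uniq (q 0) (q 1) (q 2) (T (ρ f) q 0) (T (ρ f) q 1) (T (ρ f) q 2) (dt q)
    (hpos0 q hqC hdq) (hpos0 _ hq' (by rw [hdq']; exact hdq)) hdq rfl hdq' hmax'
  funext i
  fin_cases i
  · exact h0.symm
  · exact h1.symm
  · exact h2.symm

theorem conf2 : S_conf2 := by
  intro G _ ρ hpos hb
  obtain ⟨q, hq0, hdq, hq⟩ := exists_form ρ hpos hb
  set s := Real.sqrt (dt q) with hs
  have hs2 : s ^ 2 = dt q := Real.sq_sqrt hdq.le
  have hs0 : 0 < s := Real.sqrt_pos.mpr hdq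
  set P : M2 := !![q 0, q 1; 0, s] with hP
  have hPdet : P.det = q 0 * s := by
    rw [hP, Matrix.det_fin_two_of]
    ring
  have hPne : P.det ≠ 0 := by
    rw [hPdet]
    positivity
  refine ⟨P, hPne, fun f => ?_⟩
  obtain ⟨A, hA⟩ : ∃ A : M2, A = ρ f := ⟨_, rfl⟩
  obtain ⟨B, hB⟩ : ∃ B : M2, B = P * A * P⁻¹ := ⟨_, rfl⟩
  rw [← hA, ← hB]
  have hPu : IsUnit P.det := isUnit_iff_ne_zero.mpr hPne
  have hBP : B * P = P * A := by
    rw [hB, Matrix.mul_assoc, Matrix.nonsing_inv_mul _ hPu, Matrix.mul_one]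
  have hBdet : B.det = A.det := by
    rw [hB, Matrix.det_mul, Matrix.det_mul, mul_right_comm, ← Matrix.det_mul,
      Matrix.mul_nonsing_inv _ hPu, Matrix.det_one, one_mul]
  have hAdet : 0 < A.det := by
    rw [hA]
    exact hpos f
  -- the form identity
  have hPP : Pᵀ * P = (q 0) • (!![q 0, q 1; q 1, q 2] : M2) := by
    ext i j
    have h1 : s * s = q 0 * q 2 - q 1 ^ 2 := by
      rw [← sq, hs2]
      rfl
    fin_cases i <;> fin_cases j <;>
      simp [hP, Matrix.mul_apply, Fin.sum_univ_two, Matrix.transpose_apply] <;> linarith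
  have hAQ : Aᵀ * (!![q 0, q 1; q 1, q 2] : M2) * A =
      A.det • (!![q 0, q 1; q 1, q 2] : M2) := by
    have hqA : T A q = q := by
      rw [hA]
      exact hq f
    have h0 := congrFun hqA 0
    have h1 := congrFun hqA 1
    have h2 := congrFun hqA 2
    rw [T0, inv_mul_eq_iff_eq_mul₀ hAdet.ne'] at h0
    rw [T1, inv_mul_eq_iff_eq_mul₀ hAdet.ne'] at h1
    rw [T2, inv_mul_eq_iff_eq_mul₀ hAdet.ne'] at h2
    ext i j
    fin_cases i <;> fin_cases j <;>
      simp [Matrix.mul_apply, Fin.sum_univ_two, Matrix.transpose_apply] <;>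
      first
      | linear_combination h0
      | linear_combination h1
      | linear_combination h2
  have hBB : Bᵀ * B = B.det • (1 : M2) := by
    have h1 : Pᵀ * (Bᵀ * B) * P = Pᵀ * (B.det • (1 : M2)) * P := by
      calc Pᵀ * (Bᵀ * B) * P = (B * P)ᵀ * (B * P) := by
            rw [Matrix.transpose_mul]
            simp only [Matrix.mul_assoc]
        _ = Aᵀ * (Pᵀ * P) * A := by
            rw [hBP, Matrix.transpose_mul]
            simp only [Matrix.mul_assoc]
        _ = A.det • (Pᵀ * P) := by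
            rw [hPP, Matrix.mul_smul, Matrix.smul_mul, hAQ, smul_comm]
        _ = Pᵀ * (B.det • (1 : M2)) * P := by
            rw [Matrix.mul_smul, Matrix.smul_mul, Matrix.mul_one, hBdet]
    have hPtu : IsUnit (Pᵀ).det := by rwa [Matrix.det_transpose]
    have h2 := congrArg (fun X => (Pᵀ)⁻¹ * X * P⁻¹) h1
    have h3 : ∀ X : M2, (Pᵀ)⁻¹ * (Pᵀ * X * P) * P⁻¹ = X := by
      intro X
      rw [← Matrix.mul_assoc, ← Matrix.mul_assoc, Matrix.nonsing_inv_mul _ hPtu, Matrix.one_mul,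
        Matrix.mul_assoc, Matrix.mul_nonsing_inv _ hPu, Matrix.mul_one]
    rwa [h3, h3] at h2
  have hBne : B.det ≠ 0 := by
    rw [hBdet]
    exact hAdet.ne'
  have hadj : Bᵀ = B.adjugate := by
    have h1 : B.det • Bᵀ = B.det • B.adjugate := by
      calc B.det • Bᵀ = Bᵀ * (B * B.adjugate) := by
            rw [Matrix.mul_adjugate, Matrix.mul_smul, Matrix.mul_one]
        _ = (Bᵀ * B) * B.adjugate := by rw [Matrix.mul_assoc]
        _ = B.det • B.adjugate := by rw [hBB, Matrix.smul_mul, Matrix.one_mul]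
    have h2 := congrArg (fun X => (B.det)⁻¹ • X) h1
    simpa only [smul_smul, inv_mul_cancel₀ hBne, one_smul] using h2
  rw [Matrix.adjugate_fin_two] at hadj
  have h00 := congrFun (congrFun hadj 0) 0
  have h10 := congrFun (congrFun hadj 1) 0
  simp only [Matrix.transpose_apply, Matrix.of_apply, Matrix.cons_val', Matrix.cons_val_zero,
    Matrix.cons_val_one, Matrix.cons_val_fin_one] at h00 h10
  exact ⟨h00, h10⟩

end Pool.Agent.Helper62.K3.conf2
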