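import Pool.Agent.Helper77.K3.DefsI

/-!
# Connectedness of the set of directions of flags
-/

set_option autoImplicit false
set_option linter.dupNamespace false

open Set Filter Topology Matrix Pointwise

namespace Pool.Agent.Helper62.K3.conn

open Pool.Agent.Helper77.K3

/-- Homogeneity of the distance to a cone. -/
lemma infDist_smul_cone (A : Set E) (hA : ∀ x ∈ A, ∀ t : ℝ, t • x ∈ A) (t : ℝ) (ht : t ≠ 0)
    (x : E) : Metric.infDist (t • x) A = |t| * Metric.infDist x A := by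
  have hEq : t • A = A := by
    ext y
    constructor
    · rintro ⟨z, hz, rfl⟩
      exact hA z hz t
    · intro hy
      refine ⟨t⁻¹ • y, hA y hy _, ?_⟩
      show t • (t⁻¹ • y) = y
      rw [smul_smul, mul_inv_cancel₀ ht, one_smul]
  have h := infDist_smul₀ ht A x
  rw [hEq] at h
  rw [h, Real.norm_eq_abs]

/-- The separating function. -/
noncomputable def sep (A B : Set E) (x : E) : ℝ := Metric.infDist x B - Metric.infDist x A

lemma sep_continuous (A B : Set E) : Continuous (sep A B) :=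
  (Metric.continuous_infDist_pt B).sub (Metric.continuous_infDist_pt A)

lemma sep_smul (A B : Set E) (hA : ∀ x ∈ A, ∀ t : ℝ, t • x ∈ A)
    (hB : ∀ x ∈ B, ∀ t : ℝ, t • x ∈ B) (hA0 : A.Nonempty) (hB0 : B.Nonempty) (t : ℝ) (x : E) :
    sep A B (t • x) = |t| * sep A B x := by
  by_cases ht : t = 0
  · subst ht
    have h0A : (0 : E) ∈ A := by
      obtain ⟨z, hz⟩ := hA0
      have := hA z hz 0
      rwa [zero_smul] at this
    have h0B : (0 : E) ∈ B := by
      obtain ⟨z, hz⟩ := hB0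
      have := hB z hz 0
      rwa [zero_smul] at this
    unfold sep
    rw [zero_smul, Metric.infDist_zero_of_mem h0A, Metric.infDist_zero_of_mem h0B]
    simp
  · unfold sep
    rw [infDist_smul_cone A hA t ht, infDist_smul_cone B hB t ht]
    ring

/-- The separating function of matrices. -/
noncomputable def Hs (A B : Set E) (M : M3) : ℝ := ∑ j, sep A B (fun i => M i j)

lemma Hs_continuous (A B : Set E) : Continuous (Hs A B) := by
  unfold Hs
  refine continuous_finsetSum _ fun j _ => (sep_continuous A B).comp ?_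
  exact continuous_pi fun i => continuous_id.matrix_elem i j

lemma Hs_smul (A B : Set E) (hA : ∀ x ∈ A, ∀ t : ℝ, t • x ∈ A)
    (hB : ∀ x ∈ B, ∀ t : ℝ, t • x ∈ B) (hA0 : A.Nonempty) (hB0 : B.Nonempty) (t : ℝ) (M : M3) :
    Hs A B (t • M) = |t| * Hs A B M := by
  unfold Hs
  rw [Finset.mul_sum]
  refine Finset.sum_congr rfl fun j _ => ?_
  rw [← sep_smul A B hA hB hA0 hB0]
  rfl

lemma Hs_vecMulVec (A B : Set E) (hA : ∀ x ∈ A, ∀ t : ℝ, t • x ∈ A)
    (hB : ∀ x ∈ B, ∀ t : ℝ, t • x ∈ B) (hA0 : A.Nonempty) (hB0 : B.Nonempty) (x φ : E) :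
    Hs A B (vecMulVec x φ) = (∑ j, |φ j|) * sep A B x := by
  unfold Hs
  rw [Finset.sum_mul]
  refine Finset.sum_congr rfl fun j _ => ?_
  rw [← sep_smul A B hA hB hA0 hB0]
  congr 1
  funext i
  simp [vecMulVec_apply, mul_comm]

lemma sum_abs_pos (φ : E) (hφ : φ ≠ 0) : 0 < ∑ j, |φ j| := by
  obtain ⟨j, hj⟩ := Function.ne_iff.mp hφ
  refine Finset.sum_pos' (fun i _ => abs_nonneg _) ⟨j, Finset.mem_univ j, ?_⟩
  exact abs_pos.mpr hj

lemma m_mul (F : FS) (f f' : F.G) : F.m (f * f') = F.m f * F.m f' := by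
  unfold FS.m
  rw [map_mul, Matrix.SpecialLinearGroup.coe_mul]

lemma m_one (F : FS) : F.m 1 = 1 := by
  unfold FS.m
  rw [map_one, Matrix.SpecialLinearGroup.coe_one]

lemma m_inv_mul (F : FS) (f : F.G) : F.m f⁻¹ * F.m f = 1 := by
  rw [← m_mul, inv_mul_cancel, m_one]

lemma m_mul_inv (F : FS) (f : F.G) : F.m f * F.m f⁻¹ = 1 := by
  rw [← m_mul, mul_inv_cancel, m_one]

lemma m_vecMul_ne (F : FS) (f : F.G) (φ : E) (hφ : φ ≠ 0) : φ ᵥ* F.m f ≠ 0 := by
  intro h
  apply hφ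
  have : (φ ᵥ* F.m f) ᵥ* F.m f⁻¹ = φ := by
    rw [Matrix.vecMul_vecMul, m_mul_inv, Matrix.vecMul_one]
  rw [← this, h, Matrix.zero_vecMul]

lemma m_mulVec_ne (F : FS) (f : F.G) (x : E) (hx : x ≠ 0) : F.m f *ᵥ x ≠ 0 := by
  intro h
  apply hx
  have : F.m f⁻¹ *ᵥ (F.m f *ᵥ x) = x := by
    rw [Matrix.mulVec_mulVec, m_inv_mul, Matrix.one_mulVec]
  rw [← this, h, Matrix.mulVec_zero]

lemma m_ne (F : FS) (f : F.G) : (fun i j => F.m f i j : Fin 3 → Fin 3 → ℝ) ≠ 0 := by
  intro h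
  have h0 : F.m f = 0 := by
    ext i j
    exact congrFun (congrFun h i) j
  have h1 := m_mul_inv F f
  rw [h0, Matrix.zero_mul] at h1
  have := congrFun (congrFun h1 0) 0
  simp at this

/-- Compactness: normalised subsequence. -/
lemma exists_limit (F : FS) (a : ℕ → F.G) :
    ∃ (k : ℕ → ℕ) (c : ℕ → ℝ) (π : M3), StrictMono k ∧ (∀ n, 0 < c n) ∧ π ≠ 0 ∧
      Tendsto (fun n => (c n)⁻¹ • F.m (a (k n))) atTop (𝓝 π) := by
  set u : ℕ → (Fin 3 → Fin 3 → ℝ) := fun n =>
    (‖(fun i j => F.m (a n) i j : Fin 3 → Fin 3 → ℝ)‖)⁻¹ • (fun i j => F.m (a n) i j) with hu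
  have hpos : ∀ n, 0 < ‖(fun i j => F.m (a n) i j : Fin 3 → Fin 3 → ℝ)‖ := fun n =>
    norm_pos_iff.mpr (m_ne F (a n))
  have hun : ∀ n, ‖u n‖ = 1 := by
    intro n
    rw [hu]
    simp only
    rw [norm_smul, norm_inv, norm_norm, inv_mul_cancel₀ (hpos n).ne']
  have hball : ∀ n, u n ∈ Metric.sphere (0 : Fin 3 → Fin 3 → ℝ) 1 := by
    intro n
    rw [mem_sphere_zero_iff_norm, hun n]
  obtain ⟨π, hπ, k, hk, hlim⟩ := (isCompact_sphere (0 : Fin 3 → Fin 3 → ℝ) 1).tendsto_subseq hball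
  refine ⟨k, fun n => ‖(fun i j => F.m (a (k n)) i j : Fin 3 → Fin 3 → ℝ)‖, Matrix.of π, hk,
    fun n => hpos _, ?_, ?_⟩
  · intro h
    have h0 : π = 0 := by
      have := congrArg Matrix.of.symm h
      simpa using this
    rw [h0, mem_sphere_zero_iff_norm, norm_zero] at hπ
    exact zero_ne_one hπ
  · exact hlim

lemma m_gpow (F : FS) (n : ℕ) : F.m (F.g ^ n) = Matrix.diagonal (fun i => F.ν i ^ n) := by
  induction n with
  | zero => simp [m_one]
  | succ n ih =>
    rw [pow_succ, m_mul, ih]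
    have : F.m F.g = Matrix.diagonal F.ν := F.diag
    rw [this, Matrix.diagonal_mul_diagonal]
    congr 1

lemma νpos (F : FS) (i : Fin 3) : 0 < F.ν i := by
  have h2 := F.pos
  have h1 := F.lt1
  have h0 := F.lt0
  fin_cases i <;> simp <;> linarith

lemma ν2_le (F : FS) (i : Fin 3) (hi : i ≠ 2) : F.ν 2 < F.ν i := by
  have h2 := F.pos
  have h1 := F.lt1
  have h0 := F.lt0
  fin_cases i
  · simp; linarith
  · simp; linarith
  · exact absurd rfl hi

lemma m_ginvpow (F : FS) (n : ℕ) :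
    F.m ((F.g ^ n)⁻¹) = Matrix.diagonal (fun i => (F.ν i ^ n)⁻¹) := by
  have h1 := m_inv_mul F (F.g ^ n)
  have h2 : Matrix.diagonal (fun i => F.ν i ^ n) * Matrix.diagonal (fun i => (F.ν i ^ n)⁻¹) =
      (1 : M3) := by
    rw [Matrix.diagonal_mul_diagonal, ← Matrix.diagonal_one]
    congr 1
    funext i
    exact mul_inv_cancel₀ (pow_pos (νpos F i) n).ne'
  rw [m_gpow] at h1
  calc F.m ((F.g ^ n)⁻¹) = F.m ((F.g ^ n)⁻¹) * (Matrix.diagonal (fun i => F.ν i ^ n) *
      Matrix.diagonal (fun i => (F.ν i ^ n)⁻¹)) := by rw [h2, Matrix.mul_one]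
    _ = (F.m ((F.g ^ n)⁻¹) * Matrix.diagonal (fun i => F.ν i ^ n)) *
      Matrix.diagonal (fun i => (F.ν i ^ n)⁻¹) := by rw [Matrix.mul_assoc]
    _ = _ := by rw [h1, Matrix.one_mul]

lemma gpow_inj (F : FS) : Function.Injective (fun n : ℕ => (F.g ^ n)⁻¹) := by
  intro n m h
  replace h : F.g ^ n = F.g ^ m := _root_.inv_inj.mp h
  have h1 : F.m (F.g ^ n) = F.m (F.g ^ m) := by rw [h]
  rw [m_gpow, m_gpow] at h1
  have h2 := congrFun (congrFun h1 1) 1
  simp only [Matrix.diagonal_apply_eq] at h2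
  exact (pow_right_injective₀ (νpos F 1) F.ne1) h2

/-- `f g^{-n}`, normalised, converges to a rank one matrix with image `f e 2`. -/
lemma tendsto_fg (F : FS) (f : F.G) :
    Tendsto (fun n : ℕ => (F.ν 2 ^ n) • F.m (f * (F.g ^ n)⁻¹)) atTop
      (𝓝 (vecMulVec (F.m f *ᵥ e 2) (e 2))) := by
  have hD : Tendsto (fun n : ℕ => (F.ν 2 ^ n) • Matrix.diagonal (fun i => (F.ν i ^ n)⁻¹)) atTop
      (𝓝 (Matrix.diagonal (e 2) : M3)) := by
    refine tendsto_pi_nhds.mpr fun i => tendsto_pi_nhds.mpr fun j => ?_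
    by_cases hij : i = j
    · subst hij
      simp only [Matrix.smul_apply, Matrix.diagonal_apply_eq, smul_eq_mul]
      by_cases hi : i = 2
      · subst hi
        have : (fun n : ℕ => F.ν 2 ^ n * (F.ν 2 ^ n)⁻¹) = fun _ => (1 : ℝ) := by
          funext n
          exact mul_inv_cancel₀ (pow_pos (νpos F 2) n).ne'
        rw [this]
        have h1 : (e 2 : E) 2 = 1 := by simp [e]
        rw [h1]
        exact tendsto_const_nhds
      · have : (fun n : ℕ => F.ν 2 ^ n * (F.ν i ^ n)⁻¹) = fun n => (F.ν 2 / F.ν i) ^ n := by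
          funext n
          rw [div_pow, div_eq_mul_inv]
        rw [this]
        have h1 : (e 2 : E) i = 0 := by simp [e, hi]
        rw [h1]
        apply tendsto_pow_atTop_nhds_zero_of_lt_one
        · exact (div_pos (νpos F 2) (νpos F i)).le
        · rw [div_lt_one (νpos F i)]
          exact ν2_le F i hi
    · simp only [Matrix.smul_apply, Matrix.diagonal_apply_ne _ hij, smul_zero]
      exact tendsto_const_nhds
  have h2 : (fun n : ℕ => (F.ν 2 ^ n) • F.m (f * (F.g ^ n)⁻¹)) =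
      fun n => F.m f * ((F.ν 2 ^ n) • Matrix.diagonal (fun i => (F.ν i ^ n)⁻¹)) := by
    funext n
    rw [m_mul, m_ginvpow, Matrix.mul_smul]
  rw [h2]
  have h3 : vecMulVec (F.m f *ᵥ e 2) (e 2) = F.m f * (Matrix.diagonal (e 2) : M3) := by
    ext i j
    rw [vecMulVec_apply, Matrix.mul_diagonal]
    by_cases hj : j = 2
    · subst hj
      simp [e]
    · simp [e, hj]
  rw [h3]
  exact (continuous_const.matrix_mul continuous_id).continuousAt.tendsto.comp hD

theorem conn (hrank : S_rank1) : S_conn := by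
  intro F hprop hend A B hAc hBc hA hB hAB hdisj
  by_contra hcon
  rw [not_or] at hcon
  obtain ⟨hnA, hnB⟩ := hcon
  push Not at hnA hnB
  obtain ⟨p, hp, hpA⟩ := hnA
  obtain ⟨q, hq, hqB⟩ := hnB
  have hpB : p.1 ∈ B := (hAB p hp).resolve_left hpA
  have hqA : q.1 ∈ A := (hAB q hq).resolve_right hqB
  have hA0 : A.Nonempty := ⟨_, hqA⟩
  have hB0 : B.Nonempty := ⟨_, hpB⟩
  have hsepA : ∀ x : E, x ∈ A → x ∉ B → 0 < sep A B x := by
    intro x hx hxB
    unfold sep
    rw [Metric.infDist_zero_of_mem hx, sub_zero]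
    exact (hBc.notMem_iff_infDist_pos hB0).mp hxB
  have hsepB : ∀ x : E, x ∈ B → x ∉ A → sep A B x < 0 := by
    intro x hx hxA
    unfold sep
    rw [Metric.infDist_zero_of_mem hx, zero_sub, neg_lt_zero]
    exact (hAc.notMem_iff_infDist_pos hA0).mp hxA
  have hsepne : ∀ x φ : E, (x, φ) ∈ F.fl → sep A B x ≠ 0 := by
    intro x φ hx
    rcases hAB _ hx with h | h
    · exact (hsepA x h fun h' => hdisj _ hx ⟨h, h'⟩).ne'
    · exact (hsepB x h fun h' => hdisj _ hx ⟨h', h⟩).ne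
  set S : Set F.G := {f | 0 < Hs A B (F.m f)} with hS
  -- almost invariance
  have hai : ∀ s : F.G, {a : F.G | a ∈ S ∧ a * s ∉ S}.Finite := by
    intro s
    by_contra hinf
    have hinf' : {a : F.G | a ∈ S ∧ a * s ∉ S}.Infinite := hinf
    obtain ⟨a, ha, hainj⟩ : ∃ a : ℕ → F.G, (∀ n, a n ∈ {a : F.G | a ∈ S ∧ a * s ∉ S}) ∧
        Function.Injective a := by
      have em := hinf'.natEmbedding
      exact ⟨fun n => (em n : F.G), fun n => (em n).2, fun n m h => em.injective (Subtype.ext h)⟩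
    obtain ⟨k, c, π, hk, hc, hπ, hlim⟩ := exists_limit F a
    have hcof : Tendsto (fun n => a (k n)) atTop cofinite := by
      have h1 : Function.Injective (fun n => a (k n)) := hainj.comp hk.injective
      have h2 := h1.tendsto_cofinite
      rwa [Nat.cofinite_eq_atTop] at h2
    obtain ⟨x, φ, ψ, hx, hφ, hπe, hxfl⟩ := hrank F hprop (fun n => a (k n)) c π hcof hlim hπ
    have hlim2 : Tendsto (fun n => (c n)⁻¹ • F.m (a (k n) * s)) atTop
        (𝓝 (vecMulVec x (φ ᵥ* F.m s))) := by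
      have h1 : (fun n => (c n)⁻¹ • F.m (a (k n) * s)) =
          fun n => ((c n)⁻¹ • F.m (a (k n))) * F.m s := by
        funext n
        rw [m_mul, Matrix.smul_mul]
      rw [h1]
      have h2 : vecMulVec x (φ ᵥ* F.m s) = π * F.m s := by
        rw [hπe, Matrix.vecMulVec_mul]
      rw [h2]
      exact (continuous_id.matrix_mul continuous_const).continuousAt.tendsto.comp hlim
    have hpos : 0 ≤ Hs A B π := by
      refine ge_of_tendsto' ((Hs_continuous A B).continuousAt.tendsto.comp hlim) fun n => ?_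
      show 0 ≤ Hs A B ((c n)⁻¹ • F.m (a (k n)))
      rw [Hs_smul A B hA hB hA0 hB0]
      exact mul_nonneg (abs_nonneg _) (le_of_lt (ha (k n)).1)
    have hneg : Hs A B (vecMulVec x (φ ᵥ* F.m s)) ≤ 0 := by
      refine le_of_tendsto' ((Hs_continuous A B).continuousAt.tendsto.comp hlim2) fun n => ?_
      show Hs A B ((c n)⁻¹ • F.m (a (k n) * s)) ≤ 0
      rw [Hs_smul A B hA hB hA0 hB0]
      exact mul_nonpos_of_nonneg_of_nonpos (abs_nonneg _) (not_lt.mp (ha (k n)).2)
    rw [hπe, Hs_vecMulVec A B hA hB hA0 hB0] at hpos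
    rw [Hs_vecMulVec A B hA hB hA0 hB0] at hneg
    have h1 : 0 ≤ sep A B x := nonneg_of_mul_nonneg_right hpos (sum_abs_pos φ hφ)
    have h2 : sep A B x ≤ 0 := by
      have h3 := sum_abs_pos _ (m_vecMul_ne F s φ hφ)
      by_contra h4
      exact absurd hneg (not_le.mpr (mul_pos h3 (not_le.mp h4)))
    exact hsepne x ψ hxfl (le_antisymm h2 h1)
  -- orbit elements near a flag
  have horb : ∀ (Z : Set E), IsClosed Z → (∀ x ∈ Z, ∀ t : ℝ, t • x ∈ Z) → ∀ r ∈ F.fl, r.1 ∉ Z →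
      ∃ (f : F.G) (b : ℝ) (φ : E), b ≠ 0 ∧ (b • (F.m f *ᵥ e 2), φ) ∈ F.fl ∧
        F.m f *ᵥ e 2 ∉ Z := by
    intro Z hZc hZ r hr hrZ
    have hopen : IsOpen {t : E × E | t.1 ∉ Z ∧ t.1 ≠ 0 ∧ t.2 ≠ 0} := by
      have h1 : IsOpen {t : E × E | t.1 ∉ Z} := (hZc.preimage continuous_fst).isOpen_compl
      have h2 : IsOpen {t : E × E | t.1 ≠ 0} := isOpen_ne_fun continuous_fst continuous_const
      have h3 : IsOpen {t : E × E | t.2 ≠ 0} := isOpen_ne_fun continuous_snd continuous_const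
      exact h1.inter (h2.inter h3)
    obtain ⟨t, ht1, ht2⟩ := mem_closure_iff.mp hr.1 _ hopen ⟨hrZ, hr.2.1, hr.2.2⟩
    obtain ⟨f, a, b, hab, rfl⟩ := ht2
    have ha : a ≠ 0 := by
      rintro rfl
      simp at hab
    refine ⟨f, a, b • (e 0 ᵥ* F.m f⁻¹), ha, ⟨subset_closure ⟨f, a, b, hab, rfl⟩, ht1.2.1, ht1.2.2⟩,
      fun h => ht1.1 (hZ _ h a)⟩
  have hinf : ∀ f : F.G, Function.Injective (fun n : ℕ => f * (F.g ^ n)⁻¹) := by
    intro f n m h
    exact gpow_inj F (mul_left_cancel h)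
  have hHlim : ∀ f : F.G, Tendsto (fun n : ℕ => Hs A B ((F.ν 2 ^ n) • F.m (f * (F.g ^ n)⁻¹)))
      atTop (𝓝 (sep A B (F.m f *ᵥ e 2))) := by
    intro f
    have h1 := (Hs_continuous A B).continuousAt.tendsto.comp (tendsto_fg F f)
    rw [Hs_vecMulVec A B hA hB hA0 hB0] at h1
    have h2 : (∑ j, |(e 2 : E) j|) = 1 := by
      simp [e, Fin.sum_univ_three]
    rw [h2, one_mul] at h1
    exact h1
  have hHs : ∀ (f : F.G) (n : ℕ), Hs A B ((F.ν 2 ^ n) • F.m (f * (F.g ^ n)⁻¹)) =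
      F.ν 2 ^ n * Hs A B (F.m (f * (F.g ^ n)⁻¹)) := by
    intro f n
    rw [Hs_smul A B hA hB hA0 hB0, abs_of_pos (pow_pos (νpos F 2) n)]
  have hSinf : S.Infinite := by
    obtain ⟨f, b, φ, hb, hfl, hfB⟩ := horb B hBc hB q hq hqB
    have hfA : F.m f *ᵥ e 2 ∈ A := by
      have h1 : b • (F.m f *ᵥ e 2) ∈ A := by
        rcases hAB _ hfl with h | h
        · exact h
        · exfalso
          apply hfB
          have := hB _ h b⁻¹
          rwa [smul_smul, inv_mul_cancel₀ hb, one_smul] at this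
      have := hA _ h1 b⁻¹
      rwa [smul_smul, inv_mul_cancel₀ hb, one_smul] at this
    have hpos := hsepA _ hfA hfB
    have hev : ∀ᶠ n : ℕ in atTop, f * (F.g ^ n)⁻¹ ∈ S := by
      filter_upwards [(hHlim f).eventually (lt_mem_nhds hpos)] with n hn
      rw [hHs] at hn
      exact (mul_pos_iff_of_pos_left (pow_pos (νpos F 2) n)).mp hn
    obtain ⟨N, hN⟩ := eventually_atTop.mp hev
    refine Set.infinite_of_injective_forall_mem (f := fun n : ℕ => f * (F.g ^ (N + n))⁻¹) ?_ ?_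
    · intro n m h
      have := hinf f h
      omega
    · intro n
      exact hN (N + n) (Nat.le_add_right N n)
  have hScinf : Sᶜ.Infinite := by
    obtain ⟨f, b, φ, hb, hfl, hfA⟩ := horb A hAc hA p hp hpA
    have hfB : F.m f *ᵥ e 2 ∈ B := by
      have h1 : b • (F.m f *ᵥ e 2) ∈ B := by
        rcases hAB _ hfl with h | h
        · exfalso
          apply hfA
          have := hA _ h b⁻¹
          rwa [smul_smul, inv_mul_cancel₀ hb, one_smul] at this
        · exact h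
      have := hB _ h1 b⁻¹
      rwa [smul_smul, inv_mul_cancel₀ hb, one_smul] at this
    have hneg := hsepB _ hfB hfA
    have hev : ∀ᶠ n : ℕ in atTop, f * (F.g ^ n)⁻¹ ∈ Sᶜ := by
      filter_upwards [(hHlim f).eventually (gt_mem_nhds hneg)] with n hn
      rw [hHs] at hn
      intro hmem
      exact absurd (mul_pos (pow_pos (νpos F 2) n) hmem) (not_lt.mpr hn.le)
    obtain ⟨N, hN⟩ := eventually_atTop.mp hev
    refine Set.infinite_of_injective_forall_mem (f := fun n : ℕ => f * (F.g ^ (N + n))⁻¹) ?_ ?_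
    · intro n m h
      have := hinf f h
      omega
    · intro n
      exact hN (N + n) (Nat.le_add_right N n)
  rcases hend S hai with h | h
  · exact hSinf h
  · exact hScinf h

end Pool.Agent.Helper62.K3.conn
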