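import Pool.Agent.Helper77.K3.DefsII

/-!
# Contraction to the identity
-/

set_option autoImplicit false
set_option linter.dupNamespace false

open Set Filter Topology Matrix

namespace Pool.Agent.Helper62.K3.contr

open Pool.Agent.Helper77.K3

theorem contr (hcoord : S_coord) : S_contr := by
  intro D σ hσ hlin htr
  obtain ⟨x, hx⟩ := D.conn.nonempty
  have hlim : Tendsto (fun n => σ n x) atTop (𝓝 x) := by
    rw [tendsto_pi_nhds]
    intro i
    have h1 : (fun n => σ n x i) = fun n => lin (σ n) i 0 * x 0 + lin (σ n) i 1 * x 1 +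
        lin (σ n) i 2 * x 2 + tr (σ n) i := by
      funext n
      exact hcoord.1 (σ n) x i
    rw [h1]
    have h2 : Tendsto (fun n => lin (σ n) i 0 * x 0 + lin (σ n) i 1 * x 1 +
        lin (σ n) i 2 * x 2 + tr (σ n) i) atTop (𝓝 ((if i = 0 then 1 else 0) * x 0 +
        (if i = 1 then 1 else 0) * x 1 + (if i = 2 then 1 else 0) * x 2 + 0)) :=
      ((((hlin i 0).mul_const _).add ((hlin i 1).mul_const _)).add
        ((hlin i 2).mul_const _)).add (htr i)
    have h3 : x i = (if i = 0 then 1 else 0) * x 0 +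
        (if i = 1 then 1 else 0) * x 1 + (if i = 2 then 1 else 0) * x 2 + 0 := by
      fin_cases i <;> simp
    rw [h3]
    exact h2
  obtain ⟨r, hr, hball⟩ := Metric.nhds_basis_closedBall.mem_iff.mp (D.isOpen.mem_nhds hx)
  have hfin := D.proper (Metric.closedBall x r) hball (isCompact_closedBall x r)
  have h1 : ∀ᶠ n in atTop, σ n ∈ {γ : Aff3 | γ ∈ D.Γ ∧
      ((γ '' Metric.closedBall x r) ∩ Metric.closedBall x r).Nonempty} := by
    filter_upwards [hlim.eventually (Metric.closedBall_mem_nhds x hr)] with n hn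
    exact ⟨hσ n, σ n x, ⟨x, Metric.mem_closedBall_self hr.le, rfl⟩, hn⟩
  have h2 : ∀ᶠ n in atTop, ∀ γ ∈ {γ : Aff3 | γ ∈ D.Γ ∧
      ((γ '' Metric.closedBall x r) ∩ Metric.closedBall x r).Nonempty}, γ ≠ 1 → σ n ≠ γ := by
    rw [hfin.eventually_all]
    rintro γ ⟨hγ, -⟩
    by_cases hγ1 : γ = 1
    · exact Eventually.of_forall fun n h => absurd hγ1 h
    · have hne : x ≠ γ x := fun h => hγ1 (D.free γ hγ x hx h.symm)
      filter_upwards [hlim.eventually_ne hne] with n hn _ h
      exact hn (by rw [h])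
  filter_upwards [h1, h2] with n hn1 hn2
  by_contra h
  exact hn2 (σ n) hn1 h rfl

lemma linear_apply (g : Aff3) (x v : E) : g (x + v) = g x + g.linear v := by
  have := g.map_vadd x v
  simp only [vadd_eq_add] at this
  rw [add_comm x v, this, add_comm]

lemma noX_aux (hcoord : S_coord) (D : KData) (h γ : Aff3) (t b : ℝ) (hh : h ∈ D.Γ) (hγ : γ ∈ D.Γ)
    (hb0 : 0 < b) (hb1 : b < 1) (hlin : h.linear (e 0) = b • e 0)
    (hγt : ∀ x, γ x = x + t • e 0) : γ = 1 := by
  have hpow : ∀ (n : ℕ) (x : E), (h ^ n * γ * (h ^ n)⁻¹) x = x + (b ^ n * t) • e 0 := by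
    intro n
    induction n with
    | zero =>
      intro x
      rw [pow_zero, one_mul, inv_one, mul_one, hγt, pow_zero, one_mul]
    | succ n ih =>
      intro x
      have h1 : h ^ (n + 1) * γ * (h ^ (n + 1))⁻¹ = h * (h ^ n * γ * (h ^ n)⁻¹) * h⁻¹ := by
        rw [pow_succ']
        group
      rw [h1]
      have h2 : (h * (h ^ n * γ * (h ^ n)⁻¹) * h⁻¹) x =
          h ((h ^ n * γ * (h ^ n)⁻¹) (h⁻¹ x)) := rfl
      rw [h2, ih, linear_apply]
      have h3 : h (h⁻¹ x) = x := by
        have : (h * h⁻¹) x = x := by rw [mul_inv_cancel]; rfl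
        exact this
      rw [h3, map_smul, hlin, smul_smul]
      congr 2
      ring
  have hmem : ∀ n, h ^ n * γ * (h ^ n)⁻¹ ∈ D.Γ := fun n =>
    D.Γ.mul_mem (D.Γ.mul_mem (D.Γ.pow_mem hh n) hγ) (D.Γ.inv_mem (D.Γ.pow_mem hh n))
  have htr : ∀ (n : ℕ) (i : Fin 3), tr (h ^ n * γ * (h ^ n)⁻¹) i = b ^ n * t * (e 0 : E) i := by
    intro n i
    unfold tr
    rw [hpow]
    simp
  have hlin2 : ∀ (n : ℕ) (i j : Fin 3), lin (h ^ n * γ * (h ^ n)⁻¹) i j = if i = j then 1 else 0 := by
    intro n i j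
    have h1 := linear_apply (h ^ n * γ * (h ^ n)⁻¹) 0 (e j)
    rw [hpow, hpow, zero_add, zero_add] at h1
    have h2 : (h ^ n * γ * (h ^ n)⁻¹).linear (e j) = e j := by
      have h3 := congrArg (fun z => z - (b ^ n * t) • (e 0 : E)) h1
      simp only [add_sub_cancel_right, add_sub_cancel_left] at h3
      exact h3.symm
    unfold lin
    rw [h2]
    simp [e, Pi.single_apply]
  have hev := contr hcoord D (fun n => h ^ n * γ * (h ^ n)⁻¹) hmem
    (fun i j => by simp only [hlin2]; exact tendsto_const_nhds)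
    (fun i => by
      simp only [htr]
      have h1 : Tendsto (fun n : ℕ => b ^ n * t * (e 0 : E) i) atTop (𝓝 (0 * t * (e 0 : E) i)) :=
        ((tendsto_pow_atTop_nhds_zero_of_lt_one hb0.le hb1).mul_const _).mul_const _
      simpa using h1)
  obtain ⟨n, hn⟩ := hev.exists
  have h1 : h ^ n * γ * (h ^ n)⁻¹ = 1 := hn
  rwa [conj_eq_one_iff] at h1

theorem noX (hcoord : S_coord) : S_noX := by
  intro D g γ hTri hg hne hγ hmat h1 h2
  have hT := hTri g hg
  obtain ⟨h10, h20, h21, hp0, -, -, -⟩ := hT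
  have hlin : g.linear (e 0) = (lin g 0 0) • e 0 := by
    funext i
    have : g.linear (e 0) i = lin g i 0 := rfl
    rw [this]
    fin_cases i
    · simp [e]
    · simpa [e] using h10
    · simpa [e] using h20
  have hγt : ∀ x, γ x = x + (tr γ 0) • e 0 := by
    intro x
    have hm : ∀ i j, lin γ i j = if i = j then 1 else 0 := fun i j => by
      rw [← Matrix.one_apply, ← hmat]
      rfl
    funext i
    rw [hcoord.1 γ x i, hm, hm, hm]
    fin_cases i
    · simp [e]
    · simp [e, h1]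
    · simp [e, h2]
  rcases lt_or_gt_of_ne hne with hlt | hgt
  · exact noX_aux hcoord D g γ _ _ hg hγ hp0 hlt hlin hγt
  · have hinv : (g⁻¹).linear (e 0) = (lin g 0 0)⁻¹ • e 0 := by
      have h3 : (g⁻¹).linear (g.linear (e 0)) = e 0 := by
        show g.linear.symm (g.linear (e 0)) = e 0
        exact g.linear.symm_apply_apply _
      rw [hlin, map_smul] at h3
      rw [← h3, smul_smul, inv_mul_cancel₀ hp0.ne', one_smul]
      rw [h3]
    exact noX_aux hcoord D g⁻¹ γ _ _ (D.Γ.inv_mem hg) hγ (inv_pos.mpr hp0)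
      (inv_lt_one_of_one_lt₀ hgt) hinv hγt

end Pool.Agent.Helper62.K3.contr
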